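import Pool.Agent.Y16.AF.StmB
import Pool.Agent.Y572.AF.Spw

/-!
# Project AF, job SPW2: sharp form of the bound for the remaining terms
-/

set_option autoImplicit false

open Real
open Pool.Agent.Y16.AF Pool.Agent.Y572.AF

namespace Pool.Agent.Y37.AF

theorem tele (w a : ℝ) (n : ℕ) :
    (∑ t ∈ Finset.range n, cosh (w * (a - 1 - 2 * t))) * sinh w =
      (sinh (w * a) - sinh (w * (a - 2 * n))) / 2 := by
  induction n with
  | zero => simp
  | succ n ih =>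
    rw [Finset.sum_range_succ, add_mul, ih]
    have e1 : w * (a - 2 * n) = w * (a - 1 - 2 * n) + w := by ring
    have e2 : w * (a - 2 * (n + 1 : ℕ)) = w * (a - 1 - 2 * n) - w := by push_cast; ring
    rw [e1, e2, sinh_add, sinh_sub]
    ring

section

variable {L : ℕ} {w : ℝ}

theorem T1 (hw : 0 < w) (hL : 1 ≤ w * L) : ∑ t ∈ Finset.range L, GN L w t t =
    (L * cosh (w * L)) / (2 * (sinh w * sinh (w * L))) + 1 / (2 * (sinh w * sinh w)) := by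
  have hs : sinh w ≠ 0 := (sinh_pos_iff.2 hw).ne'
  have hS : sinh (w * L) ≠ 0 := (sinh_pos_iff.2 (by linarith)).ne'
  have h1 : ∀ t ∈ Finset.range L, GN L w t t =
      (cosh (w * L) + cosh (w * (L - 1 - 2 * t))) / (2 * (sinh w * sinh (w * L))) := by
    intro t _
    rw [GN, min_self, max_self]
    have e1 : cosh (w * L) = cosh (w * ((t : ℝ) + 1 / 2) + w * (L - 1 / 2 - t)) := by
      congr 1; ring
    have e2 : cosh (w * (L - 1 - 2 * t)) = cosh (w * (L - 1 / 2 - t) - w * ((t : ℝ) + 1 / 2)) := by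
      congr 1; ring
    rw [e1, e2, cosh_add, cosh_sub]
    have hS' := hS
    field_simp
    ring
  rw [Finset.sum_congr rfl h1, ← Finset.sum_div, Finset.sum_add_distrib, Finset.sum_const,
    Finset.card_range, nsmul_eq_mul]
  have h2 := tele w L L
  have e3 : w * ((L : ℝ) - 2 * L) = -(w * L) := by ring
  rw [e3, sinh_neg] at h2
  have h3 : ∑ t ∈ Finset.range L, cosh (w * ((L : ℝ) - 1 - 2 * t)) = sinh (w * L) / sinh w := by
    rw [eq_div_iff hs, h2]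
    ring
  rw [h3]
  clear h1 h2 h3 e3
  generalize sinh (w * L) = S at hS ⊢
  generalize cosh (w * L) = C
  field_simp

theorem T2 (hw : 0 < w) (hL2 : 2 ≤ L) (hL : 1 ≤ w * L) :
    ∑ t ∈ Finset.range (L - 1), (1 - (2 * cosh w - 2) * GD L w (t + 1) (t + 1)) =
      (L - 1) - (2 * cosh w - 2) * ((L - 1) * cosh (w * L) / (2 * (sinh w * sinh (w * L))) -
        sinh (w * (L - 1)) / (2 * (sinh w * sinh w * sinh (w * L)))) := by
  have hs : sinh w ≠ 0 := (sinh_pos_iff.2 hw).ne'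
  have hS : sinh (w * L) ≠ 0 := (sinh_pos_iff.2 (by linarith)).ne'
  have hc : ((L - 1 : ℕ) : ℝ) = L - 1 := by
    rw [Nat.cast_sub (by omega)]; simp
  have h1 : ∀ t ∈ Finset.range (L - 1), GD L w (t + 1) (t + 1) =
      (cosh (w * L) - cosh (w * ((L - 1 : ℝ) - 1 - 2 * t))) / (2 * (sinh w * sinh (w * L))) := by
    intro t _
    rw [GD, min_self, max_self]
    have e1 : cosh (w * L) = cosh (w * ((t + 1 : ℕ) : ℝ) + w * (L - ((t + 1 : ℕ) : ℝ))) := by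
      congr 1; ring
    have e2 : cosh (w * ((L - 1 : ℝ) - 1 - 2 * t)) =
        cosh (w * (L - ((t + 1 : ℕ) : ℝ)) - w * ((t + 1 : ℕ) : ℝ)) := by
      congr 1; push_cast; ring
    rw [e1, e2, cosh_add, cosh_sub]
    field_simp
    ring
  rw [Finset.sum_sub_distrib, ← Finset.mul_sum, Finset.sum_congr rfl h1, ← Finset.sum_div,
    Finset.sum_sub_distrib, Finset.sum_const, Finset.sum_const, Finset.card_range, nsmul_eq_mul,
    nsmul_eq_mul, hc]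
  have h2 := tele w ((L : ℝ) - 1) (L - 1)
  have e3 : w * ((L : ℝ) - 1 - 2 * ((L - 1 : ℕ) : ℝ)) = -(w * (L - 1)) := by rw [hc]; ring
  rw [e3, sinh_neg] at h2
  have h3 : ∑ t ∈ Finset.range (L - 1), cosh (w * ((L - 1 : ℝ) - 1 - 2 * t)) =
      sinh (w * (L - 1)) / sinh w := by
    rw [eq_div_iff hs, h2]
    ring
  rw [h3]
  field_simp

theorem T3 (hw : 0 < w) (hL2 : 2 ≤ L) (hL : 1 ≤ w * L) :
    ∑ t ∈ Finset.range (L - 2), ∑ s ∈ Finset.range (L - 2),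
      (GD L w (t + 2) (s + 2) * GD L w (t + 1) (s + 1) -
        GD L w (t + 1) (s + 2) * GD L w (t + 2) (s + 1)) =
      (L - 2) * cosh (w * L - w) / (2 * (sinh w * sinh (w * L))) -
        sinh (w * (L - 2)) / (2 * (sinh w * sinh w * sinh (w * L))) := by
  have hs : sinh w ≠ 0 := (sinh_pos_iff.2 hw).ne'
  have hS : sinh (w * L) ≠ 0 := (sinh_pos_iff.2 (by linarith)).ne'
  have hc : ((L - 2 : ℕ) : ℝ) = L - 2 := by
    rw [Nat.cast_sub hL2]; simp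
  have e : ∀ t ∈ Finset.range (L - 2), ∑ s ∈ Finset.range (L - 2),
      (GD L w (t + 2) (s + 2) * GD L w (t + 1) (s + 1) -
        GD L w (t + 1) (s + 2) * GD L w (t + 2) (s + 1)) =
      (cosh (w * L - w) - cosh (w * ((L - 2 : ℝ) - 1 - 2 * t))) /
        (2 * (sinh w * sinh (w * L))) := by
    intro t ht
    rw [Finset.sum_eq_single_of_mem t ht fun s _ hst => offdiag (t + 1) (s + 1) (by omega),
      diag hw hL (t + 1)]
    have e1 : cosh (w * L - w) = cosh (w * ((t + 1 : ℕ) : ℝ) + w * (L - ((t + 1 + 1 : ℕ) : ℝ))) := by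
      congr 1; push_cast; ring
    have e2 : cosh (w * ((L - 2 : ℝ) - 1 - 2 * t)) =
        cosh (w * (L - ((t + 1 + 1 : ℕ) : ℝ)) - w * ((t + 1 : ℕ) : ℝ)) := by
      congr 1; push_cast; ring
    rw [e1, e2, cosh_add, cosh_sub]
    field_simp
    ring
  rw [Finset.sum_congr rfl e, ← Finset.sum_div, Finset.sum_sub_distrib, Finset.sum_const,
    Finset.card_range, nsmul_eq_mul, hc]
  have h2 := tele w ((L : ℝ) - 2) (L - 2)
  have e3 : w * ((L : ℝ) - 2 - 2 * ((L - 2 : ℕ) : ℝ)) = -(w * (L - 2)) := by rw [hc]; ring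
  rw [e3, sinh_neg] at h2
  have h3 : ∑ t ∈ Finset.range (L - 2), cosh (w * ((L - 2 : ℝ) - 1 - 2 * t)) =
      sinh (w * (L - 2)) / sinh w := by
    rw [eq_div_iff hs, h2]
    ring
  rw [h3]
  field_simp

end

theorem fin_bound {x2 x3 k x5 x7 x8 x10 x11 r : ℝ} (h2 : 0 ≤ x2 ∧ x2 ≤ r * r)
    (h3 : 0 ≤ x3 ∧ x3 ≤ r * r) (hk : 0 ≤ k ∧ k ≤ 1) (h5 : 0 ≤ x5 ∧ x5 ≤ r) (h7 : 0 ≤ x7 ∧ x7 ≤ r)
    (h8 : 0 ≤ x8 ∧ x8 ≤ r) (h10 : 0 ≤ x10 ∧ x10 ≤ r * r) (h11 : 0 ≤ x11 ∧ x11 ≤ r * r)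
    (hr : r ≤ 3 * (r * r)) (h1 : 1 ≤ 9 * (r * r)) :
    |-(1 / 4 * x2) - 1 / 4 * x3 + 1 / 4 - 1 / 4 * k + 1 / 4 * x5 - 1 / 4 * x7 + 1 / 2 * x8 -
      1 / 4 * x10 + 1 / 4 * x11| ≤ 9 * (r * r) := by
  obtain ⟨a2, b2⟩ := h2
  obtain ⟨a3, b3⟩ := h3
  obtain ⟨a4, b4⟩ := hk
  obtain ⟨a5, b5⟩ := h5
  obtain ⟨a7, b7⟩ := h7
  obtain ⟨a8, b8⟩ := h8
  obtain ⟨a10, b10⟩ := h10
  obtain ⟨a11, b11⟩ := h11
  generalize r * r = R at *
  rw [abs_le]
  constructor <;> linarith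

theorem af_spw2 : S_SPW2 := by
  refine ⟨9, fun L hL2 w hw hw3 hL => ?_⟩
  have hLr : (2 : ℝ) ≤ L := by exact_mod_cast hL2
  have hs : 0 < sinh w := sinh_pos_iff.2 hw
  have hS : 0 < sinh (w * L) := sinh_pos_iff.2 (by linarith)
  have hws : w ≤ sinh w := self_le_sinh_iff.2 hw.le
  have hxS : w * L ≤ sinh (w * L) := self_le_sinh_iff.2 (by linarith)
  -- the quantities
  obtain ⟨s, hsd⟩ : ∃ s, s = sinh w := ⟨_, rfl⟩
  obtain ⟨S, hSd⟩ : ∃ S, S = sinh (w * L) := ⟨_, rfl⟩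
  obtain ⟨c, hcd⟩ : ∃ c, c = cosh w := ⟨_, rfl⟩
  obtain ⟨q, hqd⟩ : ∃ q, q = exp (-(w * L)) := ⟨_, rfl⟩
  obtain ⟨A, hA⟩ : ∃ A, A = sinh (w * (L - 1)) := ⟨_, rfl⟩
  obtain ⟨B, hB⟩ : ∃ B, B = sinh (w * (L - 2)) := ⟨_, rfl⟩
  have hcx : cosh (w * L) = S + q := by
    rw [hSd, hqd, cosh_eq, sinh_eq]
    ring
  have hcm : cosh (w * L - w) = (c - s) * S + q * c := by
    rw [cosh_sub, hcx, hcd, hsd, hSd, hqd]
    have : exp (-(w * L)) = cosh (w * L) - sinh (w * L) := by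
      rw [cosh_eq, sinh_eq]; ring
    have h2 := hcx
    rw [hSd, hqd] at h2
    rw [this]
    ring
  have hc1 : 1 ≤ c := by rw [hcd]; exact one_le_cosh w
  have hcs : c - 1 ≤ s := by
    rw [hcd, hsd, cosh_eq, sinh_eq]
    have h1 : exp (-w) ≤ 1 := by rw [exp_le_one_iff]; linarith
    linarith
  have he : c - s = exp (-w) := by rw [hcd, hsd, cosh_eq, sinh_eq]; ring
  have he0 : 0 ≤ c - s := by rw [he]; exact (exp_pos _).le
  have he1 : c - s ≤ 1 := by rw [he, exp_le_one_iff]; linarith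
  have hq0 : 0 ≤ q := by rw [hqd]; exact (exp_pos _).le
  have hq1 : q ≤ 1 := by rw [hqd, exp_le_one_iff]; linarith
  have hqc : q * c ≤ 1 := by
    have h1 : c ≤ exp w := by
      rw [hcd, cosh_eq]
      have : exp (-w) ≤ exp w := exp_le_exp.2 (by linarith)
      linarith
    have h2 : exp w ≤ exp (w * L) := exp_le_exp.2 (by nlinarith)
    calc q * c ≤ q * exp (w * L) := mul_le_mul_of_nonneg_left (h1.trans h2) hq0
      _ = 1 := by rw [hqd, ← exp_add]; simp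
  have hA0 : 0 ≤ A := by
    rw [hA]
    exact sinh_nonneg_iff.2 (mul_nonneg hw.le (by linarith))
  have hA1 : A ≤ S := by
    rw [hA, hSd]
    exact sinh_le_sinh.2 (by nlinarith)
  have hB0 : 0 ≤ B := by
    rw [hB]
    exact sinh_nonneg_iff.2 (mul_nonneg hw.le (by linarith))
  have hB1 : B ≤ S := by
    rw [hB, hSd]
    exact sinh_le_sinh.2 (by nlinarith)
  rw [← hsd] at hs hws
  rw [← hSd] at hS hxS
  have key : FW L w + L / (2 * s) =
      -(1 / 4 * (1 / s * (L / S * q))) - 1 / 4 * (1 / s * (1 / s)) + 1 / 4 -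
        1 / 4 * ((c - 1) / s) + 1 / 4 * ((c - 1) / s * ((L - 1) / S * q)) -
        1 / 4 * ((c - 1) / s * (1 / s * (A / S))) + 1 / 2 * ((c - s) * (1 / s)) -
        1 / 4 * (1 / s * ((L - 2) / S * (q * c))) + 1 / 4 * (1 / s * (1 / s) * (B / S)) := by
    rw [FW, T1 hw hL, T2 hw hL2 hL, T3 hw hL2 hL, hcx, hcm, ← hsd, ← hSd, ← hcd, ← hA, ← hB]
    field_simp
    ring
  rw [hsd] at key
  rw [key, ← hsd]
  -- bounds
  obtain ⟨r, hr⟩ : ∃ r, r = 1 / w := ⟨_, rfl⟩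
  have hr0 : 0 < r := by rw [hr]; positivity
  have hr3 : 1 ≤ 3 * r := by
    rw [hr, mul_one_div, le_div_iff₀ hw]
    linarith
  have hi0 : 0 ≤ 1 / s := by positivity
  have hi1 : 1 / s ≤ r := by
    rw [hr]
    exact one_div_le_one_div_of_le hw hws
  have hk0 : 0 ≤ (c - 1) / s := div_nonneg (by linarith) hs.le
  have hk1 : (c - 1) / s ≤ 1 := (div_le_one hs).2 hcs
  have hLS : (L : ℝ) / S ≤ r := by
    rw [hr, div_le_div_iff₀ hS hw]
    linarith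
  have hp0 : 0 ≤ (L : ℝ) / S := by positivity
  have hz0 : 0 ≤ ((L : ℝ) - 1) / S := div_nonneg (by linarith) hS.le
  have hz1 : ((L : ℝ) - 1) / S ≤ r := (div_le_div_of_nonneg_right (by linarith) hS.le).trans hLS
  have hy0 : 0 ≤ ((L : ℝ) - 2) / S := div_nonneg (by linarith) hS.le
  have hy1 : ((L : ℝ) - 2) / S ≤ r := (div_le_div_of_nonneg_right (by linarith) hS.le).trans hLS
  have hα0 : 0 ≤ A / S := div_nonneg hA0 hS.le
  have hα1 : A / S ≤ 1 := (div_le_one hS).2 hA1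
  have hβ0 : 0 ≤ B / S := div_nonneg hB0 hS.le
  have hβ1 : B / S ≤ 1 := (div_le_one hS).2 hB1
  have hqc0 : 0 ≤ q * c := mul_nonneg hq0 (by linarith)
  have m1 : ∀ {x y X Y : ℝ}, 0 ≤ x → 0 ≤ y → x ≤ X → y ≤ Y → 0 ≤ x * y ∧ x * y ≤ X * Y :=
    fun hx hy hX hY => ⟨mul_nonneg hx hy, mul_le_mul hX hY hy (hx.trans hX)⟩
  have a1 := m1 hp0 hq0 hLS hq1
  have a2 := m1 hi0 a1.1 hi1 a1.2
  have a3 := m1 hi0 hi0 hi1 hi1
  have a4 := m1 hz0 hq0 hz1 hq1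
  have a5 := m1 hk0 a4.1 hk1 a4.2
  have a6 := m1 hi0 hα0 hi1 hα1
  have a7 := m1 hk0 a6.1 hk1 a6.2
  have a8 := m1 he0 hi0 he1 hi1
  have a9 := m1 hy0 hqc0 hy1 hqc
  have a10 := m1 hi0 a9.1 hi1 a9.2
  have a11 := m1 a3.1 hβ0 a3.2 hβ1
  have hrr : r ≤ 3 * (r * r) := by
    have h := mul_le_mul_of_nonneg_left hr3 hr0.le
    calc r = r * 1 := (mul_one r).symm
      _ ≤ r * (3 * r) := h
      _ = 3 * (r * r) := by ring
  have h1r : 1 ≤ 9 * (r * r) := by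
    calc (1 : ℝ) ≤ 3 * r := hr3
      _ ≤ 3 * (3 * (r * r)) := mul_le_mul_of_nonneg_left hrr (by norm_num)
      _ = 9 * (r * r) := by ring
  have hC : 9 / w ^ 2 = 9 * (r * r) := by
    rw [hr]
    field_simp
  rw [hC]
  rw [mul_one] at a2 a5 a7 a10 a11
  rw [one_mul] at a5 a7 a8
  exact fin_bound a2 a3 ⟨hk0, hk1⟩ a5 a7 a8 a10 a11 hrr h1r

end Pool.Agent.Y37.AF
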